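import Pool.Agent.Helper54.R1.Goals

set_option autoImplicit false

namespace Pool.Agent.Helper31.R1

open Real Pool.Agent.Helper66.Kiss

theorem c1 : Pool.Agent.Helper54.R1.C1_stmt := by
  intro y y1 ε b hy hy1 h1 hε0 hε hb
  obtain ⟨h2, h3⟩ := abs_le.1 h1
  have ha : 39 / 50 * y ≤ y1 := by linarith
  have ha' : y1 ≤ 61 / 50 * y := by linarith
  have hy1pos : 0 < y1 := by linarith
  have hden : 0 < 1 - y1 ^ 2 := by nlinarith
  -- the square root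
  set Q : ℝ := 1 + y1 + 2 * ε - 2 * y1 ^ 2 - 2 * ε ^ 2 - 2 * y1 * ε with hQ
  have hrt : rt y1 (1 / 2 - ε) = √(Q / 2) := by
    unfold rt
    congr 1
    rw [hQ]
    ring
  have hQ1 : (1 + 2 / 5 * (y1 + 2 * ε)) ^ 2 ≤ Q := by
    rw [hQ]
    nlinarith [mul_nonneg hε0 hε0, mul_nonneg hε0 hy1pos.le, mul_nonneg hy1pos.le hy1pos.le]
  have hs : (1 + 2 / 5 * (y1 + 2 * ε)) / 2 ≤ √(Q / 2) / √2 := by
    have h4 : √(Q / 2) / √2 = √Q / 2 := by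
      have hQ0 : 0 ≤ Q := le_trans (sq_nonneg _) hQ1
      rw [← Real.sqrt_div' _ (by norm_num : (0 : ℝ) ≤ 2)]
      rw [show Q / 2 / 2 = Q / 2 ^ 2 by ring, Real.sqrt_div' _ (by norm_num : (0 : ℝ) ≤ 2 ^ 2),
        Real.sqrt_sq (by norm_num : (0 : ℝ) ≤ 2)]
    rw [h4]
    have h5 : 1 + 2 / 5 * (y1 + 2 * ε) ≤ √Q := Real.le_sqrt_of_sq_le hQ1
    linarith
  have hby : 1 - 3 / 5 * y ≤ 1 - b * y := by nlinarith
  have hby0 : 0 < 1 - 3 / 5 * y := by linarith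
  have hkey : (1 / 2 - ε - y1 / 2) / (1 - y1 ^ 2) <
      (1 - 3 / 5 * y) * ((1 + 2 / 5 * (y1 + 2 * ε)) / 2) := by
    rw [div_lt_iff₀ hden]
    nlinarith [mul_nonneg hε0 hε0, mul_nonneg hε0 hy1pos.le, mul_nonneg hy1pos.le hy1pos.le,
      mul_nonneg hy.le hε0, mul_nonneg hy.le hy1pos.le,
      mul_nonneg (mul_nonneg hy1pos.le hy1pos.le) hy.le,
      mul_nonneg (mul_nonneg hy1pos.le hy1pos.le) hε0]
  rw [hrt]
  have e1 : nr y1 (1 / 2 - ε) 1 0 = (1 / 2 - ε - y1 / 2) / (1 - y1 ^ 2) := by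
    unfold nr
    ring
  have e2 : (1 - b * y) / √2 * √(Q / 2) = (1 - b * y) * (√(Q / 2) / √2) := by ring
  rw [e1, e2]
  calc (1 / 2 - ε - y1 / 2) / (1 - y1 ^ 2)
      < (1 - 3 / 5 * y) * ((1 + 2 / 5 * (y1 + 2 * ε)) / 2) := hkey
    _ ≤ (1 - b * y) * ((1 + 2 / 5 * (y1 + 2 * ε)) / 2) := by
        apply mul_le_mul_of_nonneg_right hby
        linarith
    _ ≤ (1 - b * y) * (√(Q / 2) / √2) := by
        apply mul_le_mul_of_nonneg_left hs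
        linarith

end Pool.Agent.Helper31.R1
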