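import Pool.Agent.Helper54.R1.Geo

set_option autoImplicit false

/-! # Region R1, packet DH: the direction opens every contact, HCP order -/

namespace Pool.Agent.Helper31.R1

open Real Pool.Agent.Helper66.Kiss Pool.Agent.Helper54.R1

theorem forall4 {P : Fin 4 → Prop} (h0 : P 0) (h1 : P 1) (h2 : P 2) (h3 : P 3) : ∀ k, P k := by
  intro k
  fin_cases k <;> assumption

theorem forall44 {P : Fin 4 → Fin 4 → Prop} (hs : ∀ j k, P j k → P k j) (h01 : P 0 1)
    (h02 : P 0 2) (h03 : P 0 3) (h12 : P 1 2) (h13 : P 1 3) (h23 : P 2 3) :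
    ∀ j k, j ≠ k → P j k := by
  intro j k hjk
  fin_cases j <;> fin_cases k <;>
    first
      | exact absurd rfl hjk
      | assumption
      | (apply hs; assumption)

theorem far {z w a b : ℝ} (hzw : z * w ≤ 2 / 5) (h1 : π / 2 ≤ b - a) (h2 : b - a ≤ π + π / 2) :
    gg z w a b < 1 / 2 := by
  apply lt_of_cos_nonpos hzw
  rw [← cos_neg, neg_sub]
  exact Real.cos_nonpos_of_pi_div_two_le_of_le h1 h2

theorem cos_le_mid {x : ℝ} (h1 : 4 / 5 ≤ x) (h2 : x ≤ 2 * π - 4 / 5) : cos x ≤ 3 / 4 := by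
  have hpi := Real.pi_gt_three
  have h3 : cos (4 / 5) ≤ 3 / 4 := by
    have h := Real.cos_bound (x := 4 / 5) (by rw [abs_of_pos] <;> norm_num)
    have h' := (abs_le.1 h).2
    rw [abs_of_pos (by norm_num : (0 : ℝ) < 4 / 5)] at h'
    norm_num at h' ⊢
    linarith
  rcases le_total x π with h | h
  · exact (Real.cos_le_cos_of_nonneg_of_le_pi (by norm_num) h h1).trans h3
  · have : cos x = cos (2 * π - x) := by rw [Real.cos_two_pi_sub]
    rw [this]
    exact (Real.cos_le_cos_of_nonneg_of_le_pi (by norm_num) (by linarith) (by linarith)).trans h3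

theorem mid {z w a b : ℝ} (hzw : z * w ≤ -1 / 5) (hz : 1 / 5 ≤ z ^ 2) (hw : 1 / 5 ≤ w ^ 2)
    (h1 : 4 / 5 ≤ b - a) (h2 : b - a ≤ 2 * π - 4 / 5) : gg z w a b < 1 / 2 := by
  apply lt_of_mid hzw _ hz hw
  rw [← cos_neg, neg_sub]
  exact cos_le_mid h1 h2

theorem small {z w a b : ℝ} (hzw : z * w ≤ 2 / 5) (hw : √(1 - w ^ 2) ≤ 1 / 50) :
    gg z w a b < 1 / 2 := by
  unfold gg
  have h1 : √(1 - z ^ 2) ≤ 1 := by
    rw [Real.sqrt_le_one]
    nlinarith [sq_nonneg z]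
  have h2 : 0 ≤ √(1 - z ^ 2) := Real.sqrt_nonneg _
  have h3 : 0 ≤ √(1 - w ^ 2) := Real.sqrt_nonneg _
  have h4 : √(1 - z ^ 2) * √(1 - w ^ 2) ≤ 1 * (1 / 50) := mul_le_mul h1 hw h3 (by norm_num)
  have h5 : √(1 - z ^ 2) * √(1 - w ^ 2) * cos (a - b) ≤ √(1 - z ^ 2) * √(1 - w ^ 2) * 1 :=
    mul_le_mul_of_nonneg_left (Real.cos_le_one _) (mul_nonneg h2 h3)
  linarith

/-- facts about a pair `U`, `L` -/
theorem prodUL {ε e : ℝ} (h0 : 0 ≤ ε) (h1 : ε ≤ 3 / 256) (h2 : |e| ≤ 3 / 256) :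
    (1 / 2 - ε) * (-1 / 2 - e) ≤ -1 / 5 ∧ 1 / 5 ≤ (1 / 2 - ε) ^ 2 ∧ 1 / 5 ≤ (-1 / 2 - e) ^ 2 := by
  have := abs_le.1 h2
  refine ⟨?_, ?_, ?_⟩ <;> nlinarith

/-- **DH.** -/
theorem dh : Pool.Agent.Helper54.R1.DH_stmt := by
  intro C1 C2 C3 C4 C6 C7 C8 y y1 y2 zs c s ε e a b hB hWa hWb hN hy
  have hT := T0_num
  have hp1 := Real.pi_gt_d4
  have hp2 := Real.pi_lt_d4
  obtain ⟨hy1, hy2, -, hzs0, hzs1, hε0, hερ, heρ, hc0, hc1, -, -, -, -, -, -, -, -, -, -⟩ := hB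
  obtain ⟨ha0, ha0', hc, hc', ha1, ha1', ha2, ha2', ha3, ha3', ta03, ta01⟩ := hWa
  obtain ⟨hb0, hb0', -, -, hb1, hb1', hb2, hb2', hb3, hb3', tb03, tb01⟩ := hWb
  obtain ⟨-, hy16, hp, hq, hε, hel, heu, hd, hXl, hXu⟩ := hN
  have a1 := abs_le.1 hy1
  have a2 := abs_le.1 hy2
  have hd50 : √(1 - zs ^ 2) ≤ 1 / 50 := by linarith
  -- products of heights
  have pq : y1 * y2 ≤ 2 / 5 := by nlinarith
  have ps : y1 * zs ≤ 2 / 5 := by nlinarith
  have qs : y2 * zs ≤ 2 / 5 := by nlinarith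
  have sUp : ∀ k, zs * (1 / 2 - ε k) ≤ 2 / 5 := fun k => by
    have := hε0 k; have := hερ k; nlinarith
  have pUp : ∀ k, y1 * (1 / 2 - ε k) ≤ 2 / 5 := fun k => by
    have := hε0 k; have := hερ k; nlinarith
  have qUp : ∀ k, y2 * (1 / 2 - ε k) ≤ 2 / 5 := fun k => by
    have := hε0 k; have := hερ k; nlinarith
  have pLp : ∀ k, y1 * (-1 / 2 - e k) ≤ 2 / 5 := fun k => by
    have := abs_le.1 (heρ k); nlinarith
  have qLp : ∀ k, y2 * (-1 / 2 - e k) ≤ 2 / 5 := fun k => by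
    have := abs_le.1 (heρ k); nlinarith
  have UUp : ∀ j k, (1 / 2 - ε j) * (1 / 2 - ε k) ≤ 2 / 5 := fun j k => by
    have := hε0 k; have := hερ k; have := hε0 j; have := hερ j; nlinarith
  have LLp : ∀ j k, (-1 / 2 - e j) * (-1 / 2 - e k) ≤ 2 / 5 := fun j k => by
    have := abs_le.1 (heρ k); have := abs_le.1 (heρ j); nlinarith
  have hr2 : 0 < √2 := by positivity
  have hr1 : 1 ≤ √2 := by
    rw [show (1 : ℝ) = √1 by simp]
    exact Real.sqrt_le_sqrt (by norm_num)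
  -- vertical pairs
  have X0 : 3 / 5 * y / √2 ≤ a 0 - b 0 ∧ a 0 - b 0 ≤ 1 / 2 := by
    have h1 : 3 / 5 * y ≤ √2 * (a 0 - b 0) := hXl 0
    have h2 : √2 * (a 0 - b 0) ≤ 1 / 4 := hXu 0
    refine ⟨by rw [div_le_iff₀ hr2]; linarith, ?_⟩
    nlinarith
  have X1 : 3 / 5 * y / √2 ≤ b 1 - a 1 ∧ b 1 - a 1 ≤ 1 / 2 := by
    have h1 : 3 / 5 * y ≤ √2 * (b 1 - a 1) := hXl 1
    have h2 : √2 * (b 1 - a 1) ≤ 1 / 4 := hXu 1
    refine ⟨by rw [div_le_iff₀ hr2]; linarith, ?_⟩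
    nlinarith
  have X2 : 3 / 5 * y / √2 ≤ b 2 - a 2 ∧ b 2 - a 2 ≤ 1 / 2 := by
    have h1 : 3 / 5 * y ≤ √2 * (b 2 - a 2) := hXl 2
    have h2 : √2 * (b 2 - a 2) ≤ 1 / 4 := hXu 2
    refine ⟨by rw [div_le_iff₀ hr2]; linarith, ?_⟩
    nlinarith
  have X3 : 3 / 5 * y / √2 ≤ b 3 - a 3 ∧ b 3 - a 3 ≤ 1 / 2 := by
    have h1 : 3 / 5 * y ≤ √2 * (b 3 - a 3) := hXl 3
    have h2 : √2 * (b 3 - a 3) ≤ 1 / 4 := hXu 3
    refine ⟨by rw [div_le_iff₀ hr2]; linarith, ?_⟩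
    nlinarith
  have hQ : ∀ k, |QH y k| = (1 + y / 5) / √2 := by
    have h0 : 0 ≤ (1 + y / 5) / √2 := by positivity
    refine forall4 ?_ ?_ ?_ ?_
    · show |-((1 + y / 5) / √2)| = _
      rw [abs_neg, abs_of_nonneg h0]
    · show |(1 + y / 5) / √2| = _
      rw [abs_of_nonneg h0]
    · show |(1 + y / 5) / √2| = _
      rw [abs_of_nonneg h0]
    · show |(1 + y / 5) / √2| = _
      rw [abs_of_nonneg h0]
  have sinpos : ∀ x : ℝ, 0 < x → x < π → 0 < sin x := fun x h h' => sin_pos_of_pos_of_lt_pi h h'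
  have sin3 : ∀ x : ℝ, 0 < 2 * π - x → 2 * π - x < π → 0 < sin (0 - x) := fun x h h' => by
    have h1 : sin (0 - x) = sin (2 * π - x) := by
      rw [zero_sub, Real.sin_neg, Real.sin_two_pi_sub]
    rw [h1]
    exact sinpos _ h h'
  refine ⟨?_, ?_, ?_, ?_, ?_, ?_, ?_, ?_, ?_, ?_, ?_, ?_⟩
  · exact dg_of_lt (far pq (by linarith) (by linarith))
  · exact dg_of_lt (small ps hd50)
  · exact dg_of_lt (small qs hd50)
  · refine forall4 ?_ ?_ ?_ ?_
    · exact dg_pU_ahead (b := 1 / 2) C1 hy hy16 hp (hε0 0) (hε 0) (hερ 0) (by norm_num)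
        (sinpos _ (by linarith) (by linarith))
    · exact dg_of_lt (far (pUp 1) (by linarith) (by linarith))
    · exact dg_of_lt (far (pUp 2) (by linarith) (by linarith))
    · exact dg_pU_behind (b := 3 / 5) C1 hy hy16 hp (hε0 3) (hε 3) (hερ 3) (by norm_num)
        (sin3 _ (by linarith) (by linarith))
  · refine forall4 ?_ ?_ ?_ ?_
    · exact dg_qU_before (b := 1 / 2) C3 hy hy16 hq (hε0 0) (hε 0) (hερ 0) (by norm_num)
        (by norm_num) (sinpos _ (by linarith) (by linarith))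
    · exact dg_qU_after (b := 2 / 5) C3 hy hy16 hq (hε0 1) (hε 1) (hερ 1) (by norm_num)
        (by norm_num) (sinpos _ (by linarith) (by linarith))
    · exact dg_of_lt (far (qUp 2) (by linarith) (by linarith))
    · exact dg_of_lt (far (qUp 3) (by linarith) (by linarith))
  · intro k
    exact DG.symm (dg_of_lt (small (by rw [mul_comm]; exact sUp k) hd50))
  · refine forall4 ?_ ?_ ?_ ?_
    · exact dg_pL_ahead C2 hy hy16 hp (hel 0) (heu 0) (heρ 0)
        (sinpos _ (by linarith) (by linarith))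
    · exact dg_of_lt (far (pLp 1) (by linarith) (by linarith))
    · exact dg_of_lt (far (pLp 2) (by linarith) (by linarith))
    · exact dg_pL_behind C2 hy hy16 hp (hel 3) (heu 3) (heρ 3)
        (sin3 _ (by linarith) (by linarith))
  · refine forall4 ?_ ?_ ?_ ?_
    · exact dg_qL_before C4 hy hy16 hq (hel 0) (heu 0) (heρ 0)
        (sinpos _ (by linarith) (by linarith))
    · exact dg_qL_after C4 hy hy16 hq (hel 1) (heu 1) (heρ 1)
        (sinpos _ (by linarith) (by linarith))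
    · exact dg_of_lt (far (qLp 2) (by linarith) (by linarith))
    · exact dg_of_lt (far (qLp 3) (by linarith) (by linarith))
  · intro k
    exact DG.symm (dg_SL C8 hy hy16 hzs0 hzs1 (heρ k) hd (hQ k))
  · have hlt12 : PH y 1 < PH y 2 := by
      show -((1 - 2 / 5 * y) / √2) < -((1 - 1 / 2 * y) / √2)
      rw [neg_lt_neg_iff]
      exact div_lt_div_of_pos_right (by linarith) hr2
    have hlt23 : PH y 2 < PH y 3 := by
      show -((1 - 1 / 2 * y) / √2) < -((1 - 3 / 5 * y) / √2)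
      rw [neg_lt_neg_iff]
      exact div_lt_div_of_pos_right (by linarith) hr2
    refine forall44 (fun j k h => DG.symm h) ?_ ?_ ?_ ?_ ?_ ?_
    · exact dg_of_lt (far (UUp 0 1) (by linarith) (by linarith))
    · exact dg_of_lt (far (UUp 0 2) (by linarith) (by linarith))
    · exact dg_of_lt (far (UUp 0 3) (by linarith) (by linarith))
    · exact dg_UU (hε0 1) (hερ 1) (hε0 2) (hερ 2) (sinpos _ (by linarith) (by linarith)) hlt12
    · exact dg_of_lt (far (UUp 1 3) (by linarith) (by linarith))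
    · exact dg_UU (hε0 2) (hερ 2) (hε0 3) (hερ 3) (sinpos _ (by linarith) (by linarith)) hlt23
  · refine forall44 (fun j k h => DG.symm h) ?_ ?_ ?_ ?_ ?_ ?_
    · exact dg_of_lt (far (LLp 0 1) (by linarith) (by linarith))
    · exact dg_of_lt (far (LLp 0 2) (by linarith) (by linarith))
    · exact dg_of_lt (far (LLp 0 3) (by linarith) (by linarith))
    · exact dg_LL C6 hy (heρ 1) (heρ 2)
    · exact dg_of_lt (far (LLp 1 3) (by linarith) (by linarith))
    · exact dg_LL C6 hy (heρ 2) (heρ 3)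
  · have up : ∀ j k, 4 / 5 ≤ b k - a j → b k - a j ≤ 2 * π - 4 / 5 →
        DG (1 / 2 - ε j) (-1 / 2 - e k) (a j) (b k) 0 (3 / 10 * y) (PH y j) (QH y k) := by
      intro j k h1 h2
      obtain ⟨g1, g2, g3⟩ := prodUL (hε0 j) (hερ j) (heρ k)
      exact dg_of_lt (mid g1 g2 g3 h1 h2)
    have dn : ∀ j k, 4 / 5 ≤ a j - b k → a j - b k ≤ 2 * π - 4 / 5 →
        DG (1 / 2 - ε j) (-1 / 2 - e k) (a j) (b k) 0 (3 / 10 * y) (PH y j) (QH y k) := by
      intro j k h1 h2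
      obtain ⟨g1, g2, g3⟩ := prodUL (hε0 j) (hερ j) (heρ k)
      refine DG.symm (dg_of_lt (mid ?_ g3 g2 h1 h2))
      rw [mul_comm]
      exact g1
    refine forall4 ?_ ?_ ?_ ?_
    · refine forall4 ?_ ?_ ?_ ?_
      · exact dg_UL (b := 1 / 2) C7 hy hy16 (hε0 0) (hερ 0) (heρ 0) (by norm_num) X0.1 X0.2
      · exact up 0 1 (by linarith) (by linarith)
      · exact up 0 2 (by linarith) (by linarith)
      · exact up 0 3 (by linarith) (by linarith)
    · refine forall4 ?_ ?_ ?_ ?_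
      · exact dn 1 0 (by linarith) (by linarith)
      · exact dg_UL' (b := 2 / 5) C7 hy hy16 (hε0 1) (hερ 1) (heρ 1) (by norm_num) X1.1 X1.2
      · exact up 1 2 (by linarith) (by linarith)
      · exact up 1 3 (by linarith) (by linarith)
    · refine forall4 ?_ ?_ ?_ ?_
      · exact dn 2 0 (by linarith) (by linarith)
      · exact dn 2 1 (by linarith) (by linarith)
      · exact dg_UL' (b := 1 / 2) C7 hy hy16 (hε0 2) (hερ 2) (heρ 2) (by norm_num) X2.1 X2.2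
      · exact up 2 3 (by linarith) (by linarith)
    · refine forall4 ?_ ?_ ?_ ?_
      · exact dn 3 0 (by linarith) (by linarith)
      · exact dn 3 1 (by linarith) (by linarith)
      · exact dn 3 2 (by linarith) (by linarith)
      · exact dg_UL' (b := 3 / 5) C7 hy hy16 (hε0 3) (hερ 3) (heρ 3) (by norm_num) X3.1 X3.2

end Pool.Agent.Helper31.R1
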